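import Pool.Agent.Helper83_DPB.Stmts

/-!
# S5: the final contradiction
-/

open Filter Topology Set

namespace Pool.Agent.Helper83_DPB.H15

lemma chg_mono {Ω : Type} {B : Set (Set Ω)} (hB : IsAlg B) {v : Set Ω → ℝ} (hv : IsChg B v)
    {c b : Set Ω} (hc : c ∈ B) (hb : b ∈ B) (h : c ⊆ b) : v c ≤ v b := by
  have hd : b \ c ∈ B := by
    have : b \ c = (bᶜ ∪ c)ᶜ := by
      ext x; simp [Set.mem_diff]
    rw [this]
    exact hB.compl _ (hB.union _ (hB.compl _ hb) _ hc)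
  have h1 := hv.add c hc (b \ c) hd disjoint_sdiff_right
  rw [Set.union_diff_cancel h] at h1
  have := hv.nonneg _ hd
  linarith

theorem s5 (hVar : VarStmt) (hVar5 : Var5Stmt) (hDisj : DisjStmt) (hSub : SubStmt) :
    S5Stmt := by
  intro Ω A X _ _ _ _ S J hG0 hSep T hT H
  obtain ⟨v1, v2, v3, v4, v5, v6, v7⟩ := hVar Ω A S
  -- the recursive choice
  let Jc : A →L[ℂ] X := J.toContinuousLinearMap
  have hJc : ∀ a, Jc a = J a := fun a => rfl
  let P : ℕ × (X →L[ℂ] ℂ) × A × Set Ω → Prop := fun q =>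
    q.2.2.2 ∈ S.B ∧ ‖q.2.1‖ ≤ 12 ∧ ‖q.2.2.1‖ ≤ 1 ∧ (∀ t ∉ q.2.2.2, S.ev q.2.2.1 t = 0) ∧
      1 / 4 ≤ ‖q.2.1 (J q.2.2.1)‖ ∧ ∀ a : A, ‖q.2.1 (T (J a))‖ ≤ (1 / 2) ^ q.1 * ‖a‖
  let r : ℕ × (X →L[ℂ] ℂ) × A × Set Ω → ℕ × (X →L[ℂ] ℂ) × A × Set Ω → Prop := fun p q =>
    p.1 < q.1 ∧ vr S (p.2.1.comp Jc) q.2.2.2 ≤ 1 / 4 * (1 / 2) ^ (q.1 + 3)
  obtain ⟨f, hf, hr⟩ := exists_seq_of_forall_finset_exists P r (by
    classical
    intro s _
    let k : ℕ := s.sup (fun q => q.1 + 1)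
    obtain ⟨c, y, b, h1, h2, h3, h4, h5, h6, h7⟩ := H ((1 / 2) ^ k) (by positivity)
      (s.image fun q => q.2.1.comp Jc) (1 / 4 * (1 / 2) ^ (k + 3)) (by positivity)
    refine ⟨(k, c, y, b), ⟨h1, h2, h3, h4, h5, h7⟩, ?_⟩
    intro x hx
    refine ⟨?_, ?_⟩
    · have : x.1 + 1 ≤ k := Finset.le_sup (f := fun q : ℕ × (X →L[ℂ] ℂ) × A × Set Ω => q.1 + 1) hx
      exact this
    · exact h6 _ (Finset.mem_image_of_mem _ hx))
  have hfn : ∀ n, n ≤ (f n).1 := by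
    intro n
    induction n with
    | zero => exact Nat.zero_le _
    | succ n ih => exact lt_of_le_of_lt ih (hr n (n + 1) (Nat.lt_succ_self n)).1
  have hpow : ∀ {i j : ℕ}, i ≤ j → ((1 : ℝ) / 2) ^ j ≤ (1 / 2) ^ i := fun h =>
    pow_le_pow_of_le_one (by norm_num) (by norm_num) h
  -- the subsequence
  obtain ⟨κ0, hκ0, hlim⟩ := hSub A X J hSep (fun k => (f k).2.1.comp T) (12 * ‖T‖) (by
      intro n
      refine (ContinuousLinearMap.opNorm_comp_le _ _).trans ?_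
      exact mul_le_mul_of_nonneg_right (hf n).2.1 (norm_nonneg _)) (by
      intro a
      rw [tendsto_zero_iff_norm_tendsto_zero]
      refine squeeze_zero (fun n => norm_nonneg _) (g := fun n : ℕ => (1 / 2 : ℝ) ^ n * ‖a‖) ?_ ?_
      · intro n
        have := (hf n).2.2.2.2.2 a
        refine this.trans ?_
        exact mul_le_mul_of_nonneg_right (hpow (hfn n)) (norm_nonneg _)
      · have : Tendsto (fun n : ℕ => (1 / 2 : ℝ) ^ n) atTop (𝓝 0) :=
          tendsto_pow_atTop_nhds_zero_of_lt_one (by norm_num) (by norm_num)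
        simpa using this.mul_const ‖a‖)
  let c : ℕ → (X →L[ℂ] ℂ) := fun k => (f (κ0 k)).2.1
  let b : ℕ → Set Ω := fun k => (f (κ0 k)).2.2.2
  have hcn : ∀ k, ‖c k‖ ≤ 12 := fun k => (hf (κ0 k)).2.1
  have hcJn : ∀ k, ‖(c k).comp Jc‖ ≤ 12 := by
    intro k
    refine ContinuousLinearMap.opNorm_le_bound _ (by norm_num) ?_
    intro a
    have : ‖c k (J a)‖ ≤ ‖c k‖ * ‖J a‖ := (c k).le_opNorm _
    rw [J.norm_map] at this
    exact this.trans (mul_le_mul_of_nonneg_right (hcn k) (norm_nonneg _))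
  obtain ⟨κ, C, hκ, hCB, hCb, hCv, hCd⟩ := hDisj Ω S.B S.alg (fun k => vr S ((c k).comp Jc)) 12
    (1 / 4) (by norm_num) (fun k => v1 _) (fun k => (v3 _ _).trans (hcJn k)) b
    (fun k => (hf (κ0 k)).1) (by
      intro k
      obtain ⟨h1, h2, h3, h4, h5, h6⟩ := hf (κ0 k)
      have h7 := v2 ((c k).comp Jc) (b k) (f (κ0 k)).2.2.1 h4
      have h8 : (0 : ℝ) ≤ vr S ((c k).comp Jc) (b k) := (v1 _).nonneg _ h1
      calc (1 / 4 : ℝ) ≤ ‖((c k).comp Jc) (f (κ0 k)).2.2.1‖ := h5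
        _ ≤ vr S ((c k).comp Jc) (b k) * ‖(f (κ0 k)).2.2.1‖ := h7
        _ ≤ vr S ((c k).comp Jc) (b k) * 1 := mul_le_mul_of_nonneg_left h3 h8
        _ = _ := mul_one _) (by
      intro j k hjk
      have h1 := (hr (κ0 j) (κ0 k) (hκ0 hjk)).2
      refine h1.trans ?_
      refine mul_le_mul_of_nonneg_left (hpow ?_) (by norm_num)
      have := hfn (κ0 k)
      have := hκ0.id_le k
      simp only [id] at this
      omega)
  -- differences
  let g : ℕ → (X →L[ℂ] ℂ) := fun i => c (κ (2 * i + 1)) - c (κ (2 * i))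
  have hgn : ∀ i, ‖g i‖ ≤ 24 := by
    intro i
    refine (norm_sub_le _ _).trans ?_
    have := hcn (κ (2 * i + 1))
    have := hcn (κ (2 * i))
    linarith
  have hg0 : ∀ x, Tendsto (fun i => g i x) atTop (𝓝 0) := by
    intro x
    rw [Metric.tendsto_atTop]
    intro ε hε
    obtain ⟨_, hz, ⟨z, rfl⟩⟩ := Metric.dense_iff.1 hT x (ε / 50) (by positivity)
    obtain ⟨l, hl⟩ := hlim z
    have e1 : Tendsto (fun i => c (κ (2 * i + 1)) (T z)) atTop (𝓝 l) :=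
      hl.comp (hκ.tendsto_atTop.comp (tendsto_atTop_mono (fun i => by simp only [id]; omega) tendsto_id))
    have e2 : Tendsto (fun i => c (κ (2 * i)) (T z)) atTop (𝓝 l) :=
      hl.comp (hκ.tendsto_atTop.comp (tendsto_atTop_mono (fun i => by simp only [id]; omega) tendsto_id))
    have e3 : Tendsto (fun i => g i (T z)) atTop (𝓝 0) := by
      have := e1.sub e2
      rw [sub_self] at this
      exact this
    obtain ⟨N, hN⟩ := Metric.tendsto_atTop.1 e3 (ε / 2) (by positivity)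
    refine ⟨N, fun n hn => ?_⟩
    have h1 := hN n hn
    rw [dist_zero_right] at h1 ⊢
    have h2 : g n x = g n (T z) - g n (T z - x) := by rw [map_sub]; ring
    rw [h2]
    have h3 : ‖g n (T z - x)‖ ≤ 24 * (ε / 50) := by
      refine ((g n).le_opNorm _).trans ?_
      refine mul_le_mul (hgn n) ?_ (norm_nonneg _) (by norm_num)
      rw [Metric.mem_ball, dist_eq_norm] at hz
      exact hz.le
    calc ‖g n (T z) - g n (T z - x)‖ ≤ ‖g n (T z)‖ + ‖g n (T z - x)‖ := norm_sub_le _ _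
      _ < ε := by linarith
  have hvar : ∀ i, 3 / 32 ≤ vr S ((g i).comp Jc) (C (2 * i + 1)) := by
    intro i
    have e : (c (κ (2 * i + 1))).comp Jc = (g i).comp Jc + (c (κ (2 * i))).comp Jc := by
      ext a
      simp [g]
    have h1 := v5 ((g i).comp Jc) ((c (κ (2 * i))).comp Jc) (C (2 * i + 1))
    rw [← e] at h1
    have h2 := hCv (2 * i + 1)
    have h3 : vr S ((c (κ (2 * i))).comp Jc) (C (2 * i + 1)) ≤
        vr S ((c (κ (2 * i))).comp Jc) (b (κ (2 * i + 1))) :=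
      chg_mono S.alg (v1 _) (hCB _) (hf (κ0 (κ (2 * i + 1)))).1 (hCb _)
    have h4 : vr S ((c (κ (2 * i))).comp Jc) (b (κ (2 * i + 1))) ≤
        1 / 4 * (1 / 2) ^ ((f (κ0 (κ (2 * i + 1)))).1 + 3) :=
      (hr _ _ (hκ0 (hκ (by omega : 2 * i < 2 * i + 1)))).2
    have h5 : ((1 : ℝ) / 2) ^ ((f (κ0 (κ (2 * i + 1)))).1 + 3) ≤ (1 / 2) ^ 3 :=
      hpow (by omega)
    norm_num at h2 h5 ⊢
    linarith
  choose d hd hdC e he hge using fun i => hVar5 Ω A S ((g i).comp Jc) (C (2 * i + 1)) (3 / 32)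
    (hCB _) (by norm_num) (hvar i)
  have h0 := hG0 (fun i => (g i).comp Jc) (fun y => hg0 (J y)) d e hd (by
      intro m n hmn
      exact (hCd (2 * m + 1) (2 * n + 1) (by omega)).mono (hdC m) (hdC n)) he
  obtain ⟨N, hN⟩ := Metric.tendsto_atTop.1 h0 (3 / 160) (by norm_num)
  have h1 := hN N le_rfl
  rw [dist_zero_right] at h1
  have h2 := hge N
  have h3 : (3 : ℝ) / 32 / 5 = 3 / 160 := by norm_num
  rw [h3] at h2
  exact absurd h1 (not_lt.2 h2)

end Pool.Agent.Helper83_DPB.H15
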